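import Pool.Agent.H81.WK.Count
import Pool.Agent.H42.WK.Gen

/-! The sequence which splits all `(j+1)`-subsets of the support of `g0` and hits all
`j`-subsets (union bound). -/

set_option linter.unusedSectionVars false

open Module Submodule H15 H81.WK

namespace H76.WK

variable {ι : Type*} [Fintype ι] {E : Type*} [AddCommGroup E] [Module ℝ E]
  [FiniteDimensional ℝ E]

variable {w : ι → E} {j κ f ν : ℕ} {B : Finset ι} {s : ι → (E →ₗ[ℝ] ℝ)}

theorem filter_sub_card [DecidableEq ι] (B : Finset ι) (Q : ι → Prop) [DecidablePred Q] :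
    ((Finset.univ : Finset {g : ι // g ∉ B}).filter fun g => Q g.1).card
      ≤ {g | g ∉ B ∧ Q g}.ncard := by
  classical
  rw [← Finset.card_map (Function.Embedding.subtype (fun g : ι => g ∉ B))]
  rw [← Set.ncard_coe_finset]
  refine Set.ncard_le_ncard ?_ (Set.toFinite _)
  intro g hg
  rw [Finset.mem_coe, Finset.mem_map] at hg
  obtain ⟨x, hx, rfl⟩ := hg
  rw [Finset.mem_filter] at hx
  exact ⟨x.2, hx.2⟩

/-- a sequence which splits all `(j+1)`-subsets of the support of `g0` and hits all `j`-subsets. -/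
theorem exists_seq (hF : Fam w j κ f ν) (hB : Bas w B s)
    (hν : 3 * (ν + 1) + 2 ≤ 2 * (κ + f + ν)) {q : ℕ}
    (hq : ((κ + j + 1).choose (j + 1) + (κ + j + 1).choose j) * 2 ^ q < 3 ^ q) (g0 : ι) :
    ∃ g : Fin q → ι, (∀ i, g i ∉ B) ∧
      (∀ R ⊆ B, (∀ b ∈ R, s b (w g0) ≠ 0) → R.card = j + 1 →
        ∃ i, ¬ ∃ a : ℝ, ∀ b ∈ R, s b (w (g i)) = a * s b (w g0)) ∧
      (∀ R ⊆ B, R.card = j → ∃ i, ∃ b ∈ R, s b (w (g i)) ≠ 0) := by
  classical
  have hBc : B.card = κ + j + 1 := by rw [hB.card, hF.dim]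
  have hαc : Fintype.card {g : ι // g ∉ B} = κ + f + ν - 1 := by
    have h1 := Fintype.card_subtype_compl (fun g : ι => g ∈ B)
    have h2 : Fintype.card {g : ι // g ∈ B} = B.card := Fintype.card_coe B
    have h3 := hF.card
    rw [hF.dim] at h3
    rw [h1, h2, hBc]
    omega
  let T1 := {R : Finset ι // R ∈ B.powersetCard (j + 1)}
  let T2 := {R : Finset ι // R ∈ B.powersetCard j}
  let bad : T1 ⊕ T2 → Finset {g : ι // g ∉ B} := fun r =>
    Sum.elim
      (fun R : T1 => (Finset.univ : Finset {g : ι // g ∉ B}).filter fun g =>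
        (∀ b ∈ R.1, s b (w g0) ≠ 0) ∧ ∃ a : ℝ, ∀ b ∈ R.1, s b (w g.1) = a * s b (w g0))
      (fun R : T2 => (Finset.univ : Finset {g : ι // g ∉ B}).filter fun g =>
        ∀ b ∈ R.1, s b (w g.1) = 0) r
  have hbad : ∀ r, (bad r).card ≤ ν + 1 := by
    rintro (R | R)
    · have hR := Finset.mem_powersetCard.1 R.2
      by_cases h0 : ∀ b ∈ R.1, s b (w g0) ≠ 0
      · refine le_trans ?_ (count_par hF hB hR.1 h0 hR.2)
        refine le_trans (filter_sub_card B (fun g => (∀ b ∈ R.1, s b (w g0) ≠ 0) ∧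
          ∃ a : ℝ, ∀ b ∈ R.1, s b (w g) = a * s b (w g0))) ?_
        refine Set.ncard_le_ncard ?_ (Set.toFinite _)
        rintro g ⟨hg, hg2⟩
        exact ⟨hg, hg2.2⟩
      · have : bad (Sum.inl R) = ∅ := by
          refine Finset.filter_eq_empty_iff.2 ?_
          intro g _ hg
          exact h0 hg.1
        rw [this]
        simp
    · have hR := Finset.mem_powersetCard.1 R.2
      refine le_trans ?_ (Nat.le_succ_of_le (count_zero hF hB hR.1 (le_of_eq hR.2.symm)))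
      exact filter_sub_card B (fun g => ∀ b ∈ R.1, s b (w g) = 0)
  have hcard : Fintype.card (T1 ⊕ T2) = (κ + j + 1).choose (j + 1) + (κ + j + 1).choose j := by
    rw [Fintype.card_sum, Fintype.card_coe, Fintype.card_coe, Finset.card_powersetCard,
      Finset.card_powersetCard, hBc]
  have hlt : Fintype.card (T1 ⊕ T2) * (ν + 1) ^ q < Fintype.card {g : ι // g ∉ B} ^ q := by
    rw [hcard, hαc]
    set C := (κ + j + 1).choose (j + 1) + (κ + j + 1).choose j with hC
    set u := κ + f + ν - 1 with hu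
    have hu3 : 3 * (ν + 1) ≤ 2 * u := by omega
    have hupos : 0 < u := by omega
    have h1 : (3 * (ν + 1)) ^ q ≤ (2 * u) ^ q := Nat.pow_le_pow_left hu3 q
    rw [mul_pow, mul_pow] at h1
    have h3 : 0 < 3 ^ q := by positivity
    have h4 : 0 < u ^ q := by positivity
    have h5 : C * (3 ^ q * (ν + 1) ^ q) ≤ C * (2 ^ q * u ^ q) := Nat.mul_le_mul_left _ h1
    have h6 : C * 2 ^ q * u ^ q < 3 ^ q * u ^ q := Nat.mul_lt_mul_of_pos_right hq h4
    have h7 : 3 ^ q * (C * (ν + 1) ^ q) < 3 ^ q * u ^ q := by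
      calc 3 ^ q * (C * (ν + 1) ^ q) = C * (3 ^ q * (ν + 1) ^ q) := by ring
        _ ≤ C * (2 ^ q * u ^ q) := h5
        _ = C * 2 ^ q * u ^ q := by ring
        _ < 3 ^ q * u ^ q := h6
    exact Nat.lt_of_mul_lt_mul_left h7
  obtain ⟨g, hg⟩ := H42.WK.exists_hitting bad (ν + 1) q hbad hlt
  refine ⟨fun i => (g i).1, fun i => (g i).2, ?_, ?_⟩
  · intro R hR h0 hRc
    obtain ⟨i, hi⟩ := hg (Sum.inl ⟨R, Finset.mem_powersetCard.2 ⟨hR, hRc⟩⟩)
    refine ⟨i, fun ha => hi ?_⟩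
    refine Finset.mem_filter.2 ⟨Finset.mem_univ _, h0, ha⟩
  · intro R hR hRc
    obtain ⟨i, hi⟩ := hg (Sum.inr ⟨R, Finset.mem_powersetCard.2 ⟨hR, hRc⟩⟩)
    by_contra hcon
    push Not at hcon
    exact hi (Finset.mem_filter.2 ⟨Finset.mem_univ _, fun b hb => hcon i b hb⟩)

end H76.WK
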